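import Mathlib
import Pool.Agent.Helper2.Fuch.Surface

/-!
# Surfaces with finitely many punctures: not two ends

Let `Γ ≤ SL(2, ℝ)` be a discrete group all of whose nontrivial elements `g` are hyperbolic
(`|trace g| > 2`) and which is not commutative, `X = ℍ / Γ`, `q` a point of `X` and
`Σ = X ∖ {q}`.  Let `H` be a subgroup of finite index of the group of all self-homeomorphisms
of `Σ` (for instance the orientation-preserving ones) and `MCG H` the topological group of isotopy
classes of elements of `H`.  Suppose that the homeomorphisms of `Σ` which extend to `X` have finite
index; this means that the end `q` of `Σ` has a finite orbit.  If `MCG H` is generated by a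
coarsely bounded set `S` then the Cayley graph of `S` does not have exactly two ends.

By the uniformization theorem every infinite-type surface `Σ` which has an isolated planar end `q`
but only finitely many such ends is of this form: `X` is `Σ` together with the point `q`, with a
conformal structure for which all isolated planar ends of `X` are annuli.  An example is the plane
minus a Cantor set: here `X` is the sphere minus a Cantor set.

Proof.  The homeomorphisms of `Σ` which extend to `X` act on `Γ`, the fundamental group of `X`
based at `q`, and preserve the linking of the attracting fixed points at infinity.  Let `γ ∈ Γ` be
an element whose axis crosses one of its own translates, and let `Q(θ)` be the position along this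
axis, measured by powers of `γ`, of the median of three boundary points moved by the automorphism
`θ`.  Then `ℓ(θ) = sup |Q(η θ) - Q(η)|`, the supremum over all `η` preserving the linking, is a
length function (it is finite since a discrete group has only finitely many crossings), and it
vanishes near the identity.  The point pushes along `γ` and along a conjugate of `γ` have
independent unbounded displacements.
-/

set_option autoImplicit false

namespace Pool.Agent.Kept.MP_52bbbe_gt.FinitelyManyPunctures

open Pool.Agent.Helper2.Fuch

/-- **Theorem.**  Let `Γ` be a discrete noncommutative subgroup of `SL(2, ℝ)` all of whose
nontrivial elements are hyperbolic, `q` a point of the surface `ℍ / Γ` and `H` a subgroup of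
finite index of the group of self-homeomorphisms of `(ℍ / Γ) ∖ {q}`.  Suppose that the
homeomorphisms of `(ℍ / Γ) ∖ {q}` which extend to `ℍ / Γ` have finite index.  If the group `MCG H`
of isotopy classes of elements of `H` is generated by a coarsely bounded set `S`, then the number
of ends of the Cayley graph of `S` is not two. -/
theorem result (Γ : Fuchsian) (q : Γ.X) (hfin : (Γ.ext q).FiniteIndex)
    (H : Subgroup (Γ.M q ≃ₜ Γ.M q)) (hH : H.FiniteIndex) : NotTwoEnds H :=
  Γ.not_two q hfin H hH

end Pool.Agent.Kept.MP_52bbbe_gt.FinitelyManyPunctures
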