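import Mathlib
import Pool.Agent.Helper2.Planar.Final

/-!
# The plane minus a Cantor set and finitely many points: not two ends

Let `C` be a Cantor set in the plane, `F` a nonempty finite set of points outside of `C` and
`Σ = ℂ ∖ (C ∪ F)`; in other words `Σ` is the sphere minus a Cantor set and `n ≥ 2` further points.
Let `H` be a subgroup of finite index of the group of all self-homeomorphisms of `Σ` (for instance
the orientation-preserving ones) and `MCG H` the topological group of isotopy classes of elements
of `H`.  If `MCG H` is generated by a coarsely bounded set `S` then the Cayley graph of `S` does
not have exactly two ends.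

Proof.  Let `p ∈ F`.  The homeomorphisms which fix the two isolated ends `p` and `∞` form a
subgroup `fix` of finite index.  Let `a : ℂ ∖ {p} → ℝ/ℤ` be homotopic to the angle around `p` and
zero near `K = (C ∪ F) ∖ {p}`.  For `h ∈ fix` one has `a ∘ h = ± a + φ mod ℤ`, where the real
function `φ` is integer-valued near `K`; the oscillation of `φ` over `K` is a length function on
`fix`, which vanishes near the identity.  A length function on the whole group is obtained by
induction.  Pushing `p` around in the complement of `K` one finds two homeomorphisms for which the
vectors of differences of `φ` at three points of `K` are linearly independent, and the powers of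
the second one are far away from all the powers of the first one.
-/

set_option autoImplicit false

namespace Pool.Agent.Results.MP_52bbbe_gt.PlanePunctures

open Pool.Agent.Helper50.Ends Pool.Agent.Helper2.Genus Pool.Agent.Helper2.Planar

/-- **Theorem.**  Let `C` be a nonempty compact totally disconnected subset of the plane without
isolated points, `F` a nonempty finite set disjoint from `C`, and `H` a subgroup of finite index of
the group of self-homeomorphisms of the complement of `C ∪ F`.  If the group `MCG H` of isotopy
classes is generated by a coarsely bounded set `S`, then the number of ends of its Cayley graph is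
not two. -/
theorem result {C F : Set ℂ} (hC : IsCompact C) (htd : IsTotallyDisconnected C)
    (hperf : Preperfect C) (hCne : C.Nonempty) (hF : F.Finite) (hFne : F.Nonempty)
    (hdisj : Disjoint C F)
    (H : Subgroup (((C ∪ F)ᶜ : Set ℂ) ≃ₜ ((C ∪ F)ᶜ : Set ℂ))) (hH : H.FiniteIndex)
    (S : Set (MCG H)) (hS : CoarselyBounded S) (hgen : Subgroup.closure S = ⊤) :
    numEnds (cayley S) ≠ 2 :=
  not_two_of_plane hC htd hperf hCne hF hFne hdisj H hH S hS hgen

end Pool.Agent.Results.MP_52bbbe_gt.PlanePunctures
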